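import Pool.Agent.K9h10.RG.Mom

/-!
# Second moments over pairwise coprime denominators
-/

set_option autoImplicit false

namespace Pool.Agent.K9h10.RQ

open Finset Filter Topology
open Pool.Agent.H469R2.NK (e norm_e e_add e_zero conj_e)
open Pool.Agent.K9h10.RP (sum_biUnion_le)
open Pool.Agent.K9h10.RG (Bd mom2 pairs)

/-- the logarithm of the product -/
noncomputable def Th (Q : Finset ℕ) : ℝ := ∑ q ∈ Q, Real.log q

lemma Th_nonneg (Q : Finset ℕ) : 0 ≤ Th Q := sum_nonneg fun q _ => Real.log_natCast_nonneg q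

lemma sum_log_dvd (Q : Finset ℕ) (hQ : (Q : Set ℕ).Pairwise Nat.Coprime) (h0 : ∀ q ∈ Q, 1 ≤ q)
    (n : ℕ) (hn : n ≠ 0) : ∑ q ∈ Q.filter (fun q => q ∣ n), Real.log q ≤ Real.log n := by
  have h1 : ∏ q ∈ Q.filter (fun q => q ∣ n), q ∣ n := by
    apply Finset.prod_dvd_of_isRelPrime
    · intro a ha b hb hab
      rw [mem_coe, mem_filter] at ha hb
      exact Nat.coprime_iff_isRelPrime.1 (hQ (mem_coe.2 ha.1) (mem_coe.2 hb.1) hab)
    · intro q hq
      exact (mem_filter.1 hq).2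
  have h2 : ∀ q ∈ Q.filter (fun q => q ∣ n), (q : ℝ) ≠ 0 := fun q hq => by
    have := h0 q (mem_filter.1 hq).1
    exact_mod_cast (by omega : q ≠ 0)
  rw [← Real.log_prod h2]
  apply Real.log_le_log
  · exact prod_pos fun q hq => by
      have := h0 q (mem_filter.1 hq).1
      exact_mod_cast (by omega : 0 < q)
  · have := Nat.le_of_dvd (Nat.pos_of_ne_zero hn) h1
    rw [← Nat.cast_prod]
    exact Nat.cast_le.2 this

/-- the denominators with a multiple near to `X` -/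
lemma wcount (Q : Finset ℕ) (hQ : (Q : Set ℕ).Pairwise Nat.Coprime) (h0 : ∀ q ∈ Q, 1 ≤ q)
    (X T L : ℝ) (hT : 0 ≤ T) (hX : T < |X|) (hL : |X| + T ≤ Real.exp L) (hL0 : 0 ≤ L) :
    (open Classical in ∑ q ∈ Q.filter (fun q : ℕ => ∃ P : ℤ, |X - q * P| ≤ T), Real.log q) ≤
      (2 * T + 1) * L := by
  classical
  have hsub : Q.filter (fun q : ℕ => ∃ P : ℤ, |X - q * P| ≤ T) ⊆
      (Icc ⌈X - T⌉ ⌊X + T⌋).biUnion fun Z : ℤ => Q.filter (fun q => q ∣ Z.natAbs) := by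
    intro q hq
    rw [mem_filter] at hq
    obtain ⟨hq1, P, hP⟩ := hq
    rw [mem_biUnion]
    have h1 := abs_le.1 hP
    refine ⟨q * P, ?_, ?_⟩
    · rw [mem_Icc]
      constructor
      · rw [Int.ceil_le]
        push_cast
        linarith
      · rw [Int.le_floor]
        push_cast
        linarith
    · rw [mem_filter]
      refine ⟨hq1, ?_⟩
      rw [Int.natAbs_mul, Int.natAbs_natCast]
      exact dvd_mul_right _ _
  have h1 : ∑ q ∈ Q.filter (fun q : ℕ => ∃ P : ℤ, |X - q * P| ≤ T), Real.log q ≤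
      ∑ Z ∈ Icc ⌈X - T⌉ ⌊X + T⌋, ∑ q ∈ Q.filter (fun q => q ∣ Z.natAbs), Real.log q := by
    refine (sum_le_sum_of_subset_of_nonneg hsub fun q _ _ => Real.log_natCast_nonneg q).trans ?_
    exact sum_biUnion_le _ _ _ fun q => Real.log_natCast_nonneg q
  have h2 : ∀ Z ∈ Icc ⌈X - T⌉ ⌊X + T⌋, ∑ q ∈ Q.filter (fun q => q ∣ Z.natAbs), Real.log q ≤ L := by
    intro Z hZ
    rw [mem_Icc, Int.ceil_le, Int.le_floor] at hZ
    have h3 : |X - Z| ≤ T := by
      rw [abs_le]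
      constructor <;> linarith [hZ.1, hZ.2]
    have hZ0 : Z ≠ 0 := by
      rintro rfl
      rw [Int.cast_zero, sub_zero] at h3
      linarith
    refine (sum_log_dvd Q hQ h0 _ (Int.natAbs_ne_zero.2 hZ0)).trans ?_
    have h4 : ((Z.natAbs : ℕ) : ℝ) = |(Z : ℝ)| := by
      rw [Nat.cast_natAbs, Int.cast_abs]
    rw [h4]
    have h5 : 0 < |(Z : ℝ)| := abs_pos.2 (by exact_mod_cast hZ0)
    have h6 : |(Z : ℝ)| ≤ |X| + T := by
      have := abs_sub_abs_le_abs_sub (Z : ℝ) X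
      rw [abs_sub_comm] at this
      linarith
    calc Real.log |(Z : ℝ)| ≤ Real.log (Real.exp L) := Real.log_le_log h5 (h6.trans hL)
      _ = L := Real.log_exp L
  refine (h1.trans (sum_le_sum h2)).trans ?_
  rw [sum_const, nsmul_eq_mul]
  apply mul_le_mul_of_nonneg_right _ hL0
  rw [Int.card_Icc]
  have h3 : ((⌊X + T⌋ + 1 - ⌈X - T⌉ : ℤ) : ℝ) ≤ 2 * T + 1 := by
    have h4 := Int.floor_le (X + T)
    have h5 := Int.le_ceil (X - T)
    push_cast
    linarith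
  rcases le_total (⌊X + T⌋ + 1 - ⌈X - T⌉) 0 with h | h
  · rw [Int.toNat_of_nonpos h]
    push_cast
    linarith
  · have h6 : (((⌊X + T⌋ + 1 - ⌈X - T⌉).toNat : ℤ) : ℝ) = ((⌊X + T⌋ + 1 - ⌈X - T⌉ : ℤ) : ℝ) := by
      rw [Int.toNat_of_nonneg h]
    have h7 : (((⌊X + T⌋ + 1 - ⌈X - T⌉).toNat : ℕ) : ℝ) = ((⌊X + T⌋ + 1 - ⌈X - T⌉ : ℤ) : ℝ) := by
      rw [← h6]
      norm_cast
    rw [h7]
    exact h3

/-- the pairs with frequencies near to integers, for all denominators -/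
theorem sum_Bd (n G : ℕ) (Q : Finset ℕ) (hQ : (Q : Set ℕ).Pairwise Nat.Coprime) (h0 : ∀ q ∈ Q, 1 ≤ q)
    (X : ℕ → ℝ) (W L : ℝ) (hW : 0 ≤ W)
    (hG : ∀ i j : ℕ, j < i → G < i → W < |X i - X j|)
    (hL : ∀ i ∈ Icc 1 n, ∀ j ∈ Icc 1 n, |X i - X j| + W ≤ Real.exp L) (hL0 : 0 ≤ L) :
    ∑ q ∈ Q, Real.log q * ((Bd n (W / q) (fun i => X i / q)).card : ℝ) ≤
      Th Q * (n + (G : ℝ) ^ 2) + (n : ℝ) ^ 2 * ((2 * W + 1) * L) := by
  classical
  have h1 : ∀ q ∈ Q, ((Bd n (W / q) (fun i => X i / q)).card : ℝ) ≤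
      ∑ p ∈ Icc 1 n ×ˢ Icc 1 n,
        (if ∃ P : ℤ, |(X p.1 - X p.2) - q * P| ≤ W then (1 : ℝ) else 0) := by
    intro q hq
    have hq0 : (0 : ℝ) < q := by
      have := h0 q hq
      exact_mod_cast (by omega : 0 < q)
    rw [← sum_filter, sum_const, nsmul_eq_mul, mul_one]
    refine Nat.cast_le.2 (card_le_card ?_)
    intro p hp
    unfold Bd at hp
    rw [mem_filter] at hp ⊢
    refine ⟨hp.1, ?_⟩
    obtain ⟨P, hP⟩ := hp.2
    refine ⟨P, ?_⟩
    have h2 : (X p.1 - X p.2) - q * P = q * (X p.1 / q - X p.2 / q - P) := by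
      field_simp
    rw [h2, abs_mul, abs_of_pos hq0]
    calc (q : ℝ) * |X p.1 / q - X p.2 / q - P| ≤ q * (W / q) :=
          mul_le_mul_of_nonneg_left hP hq0.le
      _ = W := by field_simp
  have h2 : ∑ q ∈ Q, Real.log q * ((Bd n (W / q) (fun i => X i / q)).card : ℝ) ≤
      ∑ p ∈ Icc 1 n ×ˢ Icc 1 n,
        ∑ q ∈ Q.filter (fun q : ℕ => ∃ P : ℤ, |(X p.1 - X p.2) - q * P| ≤ W), Real.log q := by
    calc ∑ q ∈ Q, Real.log q * ((Bd n (W / q) (fun i => X i / q)).card : ℝ) ≤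
          ∑ q ∈ Q, Real.log q * ∑ p ∈ Icc 1 n ×ˢ Icc 1 n,
            (if ∃ P : ℤ, |(X p.1 - X p.2) - q * P| ≤ W then (1 : ℝ) else 0) :=
          sum_le_sum fun q hq => mul_le_mul_of_nonneg_left (h1 q hq) (Real.log_natCast_nonneg q)
      _ = ∑ q ∈ Q, ∑ p ∈ Icc 1 n ×ˢ Icc 1 n,
            (if ∃ P : ℤ, |(X p.1 - X p.2) - q * P| ≤ W then Real.log q else 0) := by
          refine sum_congr rfl fun q _ => ?_
          rw [mul_sum]
          refine sum_congr rfl fun p _ => ?_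
          split_ifs <;> simp
      _ = _ := by
          rw [sum_comm]
          refine sum_congr rfl fun p _ => ?_
          rw [sum_filter]
  refine h2.trans ?_
  have h3 : ∀ p ∈ Icc 1 n ×ˢ Icc 1 n,
      ∑ q ∈ Q.filter (fun q : ℕ => ∃ P : ℤ, |(X p.1 - X p.2) - q * P| ≤ W), Real.log q ≤
        (if |X p.1 - X p.2| ≤ W then Th Q else 0) + (2 * W + 1) * L := by
    intro p hp
    rw [mem_product] at hp
    have hpos : 0 ≤ (2 * W + 1) * L := by positivity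
    split_ifs with hc
    · have h4 : ∑ q ∈ Q.filter (fun q : ℕ => ∃ P : ℤ, |(X p.1 - X p.2) - q * P| ≤ W),
          Real.log q ≤ Th Q :=
        sum_le_sum_of_subset_of_nonneg (filter_subset _ _) fun q _ _ => Real.log_natCast_nonneg q
      linarith
    · rw [zero_add]
      exact wcount Q hQ h0 (X p.1 - X p.2) W L hW (not_le.1 hc) (hL _ hp.1 _ hp.2) hL0
  refine (sum_le_sum h3).trans ?_
  rw [sum_add_distrib, ← sum_filter, sum_const, sum_const, nsmul_eq_mul, nsmul_eq_mul, card_product,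
    Nat.card_Icc, Nat.add_sub_cancel]
  apply add_le_add
  · rw [mul_comm]
    exact mul_le_mul_of_nonneg_left (pairs n G X W hG) (Th_nonneg Q)
  · push_cast
    rw [sq]

/-- the second moment over the numerators, for one denominator -/
theorem mom_one (n q M : ℕ) (X Y : ℕ → ℝ) (T D : ℝ) (hq : 1 ≤ q) (hT : 0 < T) (hD : 0 < D)
    (hM : (q : ℝ) ≤ D * M) (J : ℤ) :
    ∑ m ∈ range M, ‖∑ i ∈ Icc 1 n, e (Y i + (J + m) * (X i / q))‖ ^ 2 ≤
      M * ((Bd n (T * D / q) (fun i => X i / q)).card + (n : ℝ) ^ 2 * (2 / T)) := by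
  have hq0 : (0 : ℝ) < q := by exact_mod_cast (by omega : 0 < q)
  have h1 := mom2 n (T * D / q) (by positivity) Y (fun i => X i / q) J M
  refine h1.trans ?_
  rw [mul_add]
  apply add_le_add le_rfl
  have h2 : 2 / (T * D / q) ≤ M * (2 / T) := by
    rw [div_le_iff₀ (by positivity)]
    have h3 : (M : ℝ) * (2 / T) * (T * D / q) = 2 * (D * M / q) := by
      field_simp
    rw [h3]
    have h4 : 1 ≤ D * M / q := by
      rw [le_div_iff₀ hq0]
      linarith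
    linarith
  calc (n : ℝ) ^ 2 * (2 / (T * D / q)) ≤ (n : ℝ) ^ 2 * (M * (2 / T)) := by gcongr
    _ = M * ((n : ℝ) ^ 2 * (2 / T)) := by ring

end Pool.Agent.K9h10.RQ
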