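import Pool.Agent.K9h10.RQ.Mom
import Pool.Agent.K9h10.RG.Scale

/-!
# One scale, for pairwise coprime denominators
-/

set_option autoImplicit false

namespace Pool.Agent.K9h10.RQ

open Finset Filter Topology
open Pool.Agent.H469R2.NK (e norm_e e_add e_zero conj_e)
open Pool.Agent.K9h10.RG (Bd Dev Dev_mono params HH mem_HH Dev_of BdN)

/-- **the exceptional set at one scale** -/
theorem scale (r : ℕ) (η : ℝ) (hη : 0 < η) : ∃ (K R : ℕ) (C : ℝ), 1 ≤ K ∧ 0 ≤ C ∧
    ∀ (b : Fin r → ℝ) (N G : ℕ) (Q : Finset ℕ) (M : ℕ → ℕ) (x : Fin r → ℝ) (T D L : ℝ)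
      (y : ℕ → Fin r → ℝ) (J : ℕ → ℤ),
      R ≤ N → 1 ≤ N → 0 < T → 0 < D → (Q : Set ℕ).Pairwise Nat.Coprime → (∀ q ∈ Q, 1 ≤ q) →
      (∀ q ∈ Q, (q : ℝ) ≤ D * M q) →
      (∀ h ∈ HH r K, ∀ i j : ℕ, j < i → G < i →
        T * D < |∑ k, h k * (x k * b k ^ i) - ∑ k, h k * (x k * b k ^ j)|) →
      (∀ h ∈ HH r K, ∀ i ∈ Icc 1 N, ∀ j ∈ Icc 1 N,
        |∑ k, h k * (x k * b k ^ i) - ∑ k, h k * (x k * b k ^ j)| + T * D ≤ Real.exp L) → 0 ≤ L →
      ∑ q ∈ Q, Real.log q * ((BdN b N (M q) η x y J q).card / M q : ℝ) ≤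
        C * (Th Q * (1 / N + ((G : ℝ) / N) ^ 2) + (2 * (T * D) + 1) * L + Th Q * (2 / T)) := by
  classical
  obtain ⟨K, R, τ, hK, hR, hτ, hp⟩ := params r η hη
  refine ⟨K, R, (((HH r K).card : ℝ) * (R + 1)) / τ ^ 2, hK, by positivity,
    fun b N G Q M x T D L y J hRN hN hT hD hQ h0 hM hG hL hL0 => ?_⟩
  have hNR : (0 : ℝ) < N := by exact_mod_cast hN
  have hMpos : ∀ q ∈ Q, (0 : ℝ) < M q := by
    intro q hq
    have h1 : (1 : ℝ) ≤ q := by exact_mod_cast h0 q hq
    have h2 := hM q hq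
    by_contra hcon
    have h3 : (M q : ℝ) = 0 := le_antisymm (not_lt.1 hcon) (Nat.cast_nonneg _)
    rw [h3, mul_zero] at h2
    linarith
  -- the exceptional sets for the single sums
  set X : (Fin r → ℤ) → ℕ → ℝ := fun h i => ∑ k, h k * (x k * b k ^ i) with hX
  set Y : (Fin r → ℤ) → ℕ → ℕ → ℝ := fun h q i => ∑ k, h k * (y q k * b k ^ i) with hY
  set S : (Fin r → ℤ) → ℕ → ℕ → ℕ → ℝ := fun h l q m =>
    ‖∑ i ∈ Icc 1 (l * (N / R + 1)), e (Y h q i + (J q + m) * (X h i / q))‖ with hS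
  set W : (Fin r → ℤ) → ℕ → ℕ → Finset ℕ := fun h l q =>
    (range (M q)).filter fun m => τ * N < S h l q m with hW
  have hsub : ∀ q, BdN b N (M q) η x y J q ⊆ (HH r K).biUnion fun h =>
      ((range (R + 1)).filter fun l => l * (N / R + 1) ≤ N).biUnion fun l => W h l q := by
    intro q m hm
    unfold BdN at hm
    rw [mem_filter] at hm
    obtain ⟨hm, hbad⟩ := hm
    by_contra hcon
    apply hbad
    refine Dev_of b N K R τ η _ hK hR hτ hRN hp ?_
    intro l hl h hh hlN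
    by_contra hc2
    push Not at hc2
    apply hcon
    rw [mem_biUnion]
    refine ⟨h, hh, ?_⟩
    rw [mem_biUnion]
    refine ⟨l, mem_filter.2 ⟨mem_range.2 (by omega), hlN⟩, ?_⟩
    rw [hW, mem_filter]
    refine ⟨hm, ?_⟩
    rw [hS]
    simp only
    have : ∀ i : ℕ, (∑ k, (h k : ℝ) * ((y q k + (J q + m) * (x k / q)) * b k ^ i)) =
        Y h q i + (J q + m) * (X h i / q) := fun i => by
      rw [hX, hY]
      simp only
      rw [sum_div, mul_sum, ← sum_add_distrib]
      exact sum_congr rfl fun k _ => by ring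
    simp_rw [this] at hc2
    exact hc2
  set V : ℝ := Th Q * (1 / N + ((G : ℝ) / N) ^ 2) + (2 * (T * D) + 1) * L + Th Q * (2 / T) with hV
  have hth := Th_nonneg Q
  have hone : ∀ h ∈ HH r K, ∀ l ∈ (range (R + 1)).filter fun l => l * (N / R + 1) ≤ N,
      ∑ q ∈ Q, Real.log q * ((W h l q).card / M q : ℝ) ≤ V / τ ^ 2 := by
    intro h hh l hl
    rw [mem_filter] at hl
    set n := l * (N / R + 1) with hn
    have hnN : (n : ℝ) ≤ N := Nat.cast_le.2 hl.2
    have hn0 : (0 : ℝ) ≤ n := Nat.cast_nonneg _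
    have hTD : 0 ≤ T * D := by positivity
    have h1 := sum_Bd n G Q hQ h0 (X h) (T * D) L hTD (hG h hh) (fun i hi j hj => hL h hh i
      (mem_Icc.2 ⟨(mem_Icc.1 hi).1, (mem_Icc.1 hi).2.trans hl.2⟩) j
      (mem_Icc.2 ⟨(mem_Icc.1 hj).1, (mem_Icc.1 hj).2.trans hl.2⟩)) hL0
    have h2 : ∀ q ∈ Q, Real.log q * ((W h l q).card / M q : ℝ) * (τ * N) ^ 2 ≤
        Real.log q * ((Bd n (T * D / q) (fun i => X h i / q)).card : ℝ) +
          Real.log q * ((n : ℝ) ^ 2 * (2 / T)) := by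
      intro q hq
      rw [mul_assoc, ← mul_add]
      apply mul_le_mul_of_nonneg_left _ (Real.log_natCast_nonneg q)
      have h3 : ((W h l q).card : ℝ) * (τ * N) ^ 2 ≤
          M q * ((Bd n (T * D / q) (fun i => X h i / q)).card + (n : ℝ) ^ 2 * (2 / T)) := by
        calc ((W h l q).card : ℝ) * (τ * N) ^ 2 = ∑ m ∈ W h l q, (τ * N) ^ 2 := by
              rw [sum_const, nsmul_eq_mul]
          _ ≤ ∑ m ∈ W h l q, S h l q m ^ 2 := by
              refine sum_le_sum fun m hm => ?_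
              exact pow_le_pow_left₀ (by positivity) (mem_filter.1 hm).2.le _
          _ ≤ ∑ m ∈ range (M q), S h l q m ^ 2 :=
              sum_le_sum_of_subset_of_nonneg (filter_subset _ _) fun m _ _ => by positivity
          _ ≤ _ := mom_one n q (M q) (X h) (Y h q) T D (h0 q hq) hT hD (hM q hq) (J q)
      rw [div_mul_eq_mul_div, div_le_iff₀ (hMpos q hq)]
      linarith
    have h3 : (∑ q ∈ Q, Real.log q * ((W h l q).card / M q : ℝ)) * (τ * N) ^ 2 ≤ V * N ^ 2 := by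
      rw [sum_mul]
      refine (sum_le_sum h2).trans ?_
      rw [sum_add_distrib, ← sum_mul]
      have e1 : V * (N : ℝ) ^ 2 = (Th Q * (N + (G : ℝ) ^ 2) + (N : ℝ) ^ 2 * ((2 * (T * D) + 1) * L)) +
          Th Q * ((N : ℝ) ^ 2 * (2 / T)) := by
        rw [hV]
        field_simp
      rw [e1]
      apply add_le_add
      · refine h1.trans ?_
        gcongr
      · change Th Q * ((n : ℝ) ^ 2 * (2 / T)) ≤ _
        gcongr
    rw [le_div_iff₀ (by positivity)]
    rw [mul_pow, ← mul_assoc] at h3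
    exact le_of_mul_le_mul_right h3 (by positivity)
  have hV0 : 0 ≤ V / τ ^ 2 := by
    have hTD : 0 ≤ T * D := by positivity
    positivity
  calc ∑ q ∈ Q, Real.log q * ((BdN b N (M q) η x y J q).card / M q : ℝ)
      ≤ ∑ q ∈ Q, Real.log q * ∑ h ∈ HH r K,
          ∑ l ∈ (range (R + 1)).filter (fun l => l * (N / R + 1) ≤ N), ((W h l q).card / M q : ℝ) := by
        refine sum_le_sum fun q hq => mul_le_mul_of_nonneg_left ?_ (Real.log_natCast_nonneg q)
        simp_rw [← sum_div]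
        apply div_le_div_of_nonneg_right _ (hMpos q hq).le
        refine (Nat.cast_le.2 (card_le_card (hsub q))).trans ?_
        refine (Nat.cast_le.2 card_biUnion_le).trans ?_
        push_cast
        refine sum_le_sum fun h _ => (Nat.cast_le.2 card_biUnion_le).trans ?_
        push_cast
        exact le_rfl
    _ = ∑ h ∈ HH r K, ∑ l ∈ (range (R + 1)).filter (fun l => l * (N / R + 1) ≤ N),
          ∑ q ∈ Q, Real.log q * ((W h l q).card / M q : ℝ) := by
        simp_rw [mul_sum]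
        rw [sum_comm]
        refine sum_congr rfl fun h _ => ?_
        rw [sum_comm]
    _ ≤ ∑ h ∈ HH r K, ∑ l ∈ (range (R + 1)).filter (fun l => l * (N / R + 1) ≤ N), V / τ ^ 2 :=
        sum_le_sum fun h hh => sum_le_sum fun l hl => hone h hh l hl
    _ ≤ ∑ h ∈ HH r K, (R + 1) * (V / τ ^ 2) := by
        refine sum_le_sum fun h _ => ?_
        rw [sum_const, nsmul_eq_mul]
        apply mul_le_mul_of_nonneg_right _ hV0
        have := card_filter_le (range (R + 1)) (fun l => l * (N / R + 1) ≤ N)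
        rw [card_range] at this
        exact_mod_cast this
    _ = (((HH r K).card : ℝ) * (R + 1)) / τ ^ 2 * V := by
        rw [sum_const, nsmul_eq_mul]
        ring

end Pool.Agent.K9h10.RQ
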